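import Pool.Agent.Q85.VL.Defs2
import Pool.Agent.TH305.AX.Wd

/-!
Axisymmetric flows: the circulation and the singular points. Definitions and statements of the
parts.

`V = Fin 3 → ℝ` has the maximum norm, `sg x = x₀² + x₁²`, `circ v = x₀ v₁ - x₁ v₀`.
-/

set_option autoImplicit false

open MeasureTheory Set Metric
open scoped ContDiff
open H459R3.NS Pool.Agent.W268.NS Pool.Agent.Q67.VD Pool.Agent.TH305.AX

namespace Pool.Agent.Q85.AXT

open Pool.Agent.Q85.CL Pool.Agent.Q85.VL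

/-- AXT-1. The parabolic distance from the axis: a threshold of nearly critical size. -/
def StmThr : Prop := ∀ (T₀ T : ℝ) (a : V) (R M q : ℝ), 0 ≤ M → 2 < q →
  Thr T₀ T a R (fun t y => M / ((√(sg y) + √(T - t)) ^ 2 *
    (1 + |Real.log (√(sg y) + √(T - t))|) ^ q))

/-- AXT-2. The curl of an axisymmetric field in terms of the circulation. -/
def StmId : Prop := ∀ (v : V → V) (x : V), DifferentiableAt ℝ v x → Axi v →
  (sg x * vort v x 2 = x 0 * pd 0 (circ v) x + x 1 * pd 1 (circ v) x) ∧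
  (x 0 * vort v x 0 + x 1 * vort v x 1 = -pd 2 (circ v) x) ∧
  ∀ g : V → ℝ, DifferentiableAt ℝ g x → (∀ θ y, g (rot θ y) = g y) →
    sg x * fderiv ℝ g x (vort v x)
      = (x 0 * pd 0 (circ v) x + x 1 * pd 1 (circ v) x) * pd 2 g x
        - pd 2 (circ v) x * (x 0 * pd 0 g x + x 1 * pd 1 g x)

/-- AXT-3. The singular points are on the axis. -/
def StmOff : Prop := ∀ (ν T E : ℝ) (u : ℝ → V → V) (p : ℝ → V → ℝ), 0 < ν → WSl ν T E u p →
  (∀ t ∈ Ioo 0 T, Axi (u t)) → ∀ a : V, Sing T u a → sg a = 0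

end Pool.Agent.Q85.AXT
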