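import Pool.Agent.Q85.AXT.Main

/-!
Regularity criteria for axisymmetric flows.
-/

set_option autoImplicit false

open MeasureTheory Set Metric Filter Topology
open scoped ContDiff
open H459R3.NS Pool.Agent.W268.NS Pool.Agent.Q67.VD Pool.Agent.TH305.AX
open Pool.Agent.Q199.VD

namespace Pool.Agent.Q85.AXT

open Pool.Agent.Q85.CC Pool.Agent.Q85.CL Pool.Agent.Q151.CC Pool.Agent.Q85.VL Pool.Agent.Q67.LV

/-- The parabolic distance to the axis at the time `t`. -/
noncomputable def pd2 (T t : ℝ) (y : V) : ℝ := √(sg y) + √(T - t)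

lemma slice_sm {ν T E : ℝ} {u : ℝ → V → V} {p : ℝ → V → ℝ} (h : WSl ν T E u p) {t : ℝ}
    (ht : t ∈ Ioo 0 T) : ContDiff ℝ ∞ (u t) := by
  have h1 : ContDiffOn ℝ ∞ (fun y : V => ((t, y) : ℝ × V)) univ :=
    (contDiff_const.prodMk contDiff_id).contDiffOn
  have h2 := h.smooth_u.comp h1 (fun y _ => mk_mem_prod ht (mem_univ y))
  exact contDiffOn_univ.1 h2

/-- The regularity criterion: at each time the vorticity near the axis is below the threshold or
some function increases or decreases along the large vorticities. -/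
theorem crit (hoff : StmOff) (hthr : StmThr) {ν T E : ℝ} {u : ℝ → V → V} {p : ℝ → V → ℝ}
    (hν : 0 < ν) (h : WSl ν T E u p) (hax : ∀ t ∈ Ioo 0 T, Axi (u t)) {T₀ κ R M q : ℝ}
    (hT0 : 0 ≤ T₀) (hT₀ : T₀ < T) (hκ : 0 < κ) (hR : 0 < R) (hq : 2 < q)
    (hc : ∀ t ∈ Ioo T₀ T,
      (∀ y, sg y ≤ R ^ 2 → om (u t) y ≤ M / ((√(sg y) + √(T - t)) ^ 2 *
        (1 + |Real.log (√(sg y) + √(T - t))|) ^ q)) ∨
      ∃ g : V → ℝ, ContDiff ℝ 1 g ∧ (∀ y z, |g y - g z| ≤ len (y - z)) ∧
        ∀ y, sg y ≤ R ^ 2 → M < om (u t) y →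
          κ * om (u t) y ≤ |fderiv ℝ g y (vort (u t) y)|) : ¬ Blow T u := by
  intro hB
  obtain ⟨a, ha⟩ := Q85.CL.sing_whole Q95.CL.far Q285.CL.wsc hν h hB
  have ha0 : sg a = 0 := hoff ν T E u p hν h hax a ha
  have hab : a 0 = 0 ∧ a 1 = 0 := by
    unfold sg at ha0
    constructor <;> nlinarith [sq_nonneg (a 0), sq_nonneg (a 1)]
  have hsub : ∀ y : V, ‖y - a‖ ≤ R / 2 → sg y ≤ R ^ 2 := by
    intro y hy
    have h0 : |y 0| ≤ R / 2 := by
      have := norm_le_pi_norm (y - a) 0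
      rw [Pi.sub_apply, hab.1, sub_zero, Real.norm_eq_abs] at this
      exact this.trans hy
    have h1 : |y 1| ≤ R / 2 := by
      have := norm_le_pi_norm (y - a) 1
      rw [Pi.sub_apply, hab.2, sub_zero, Real.norm_eq_abs] at this
      exact this.trans hy
    have h2 : y 0 ^ 2 ≤ (R / 2) ^ 2 := by
      rw [← sq_abs]
      exact pow_le_pow_left₀ (abs_nonneg _) h0 2
    have h3 : y 1 ^ 2 ≤ (R / 2) ^ 2 := by
      rw [← sq_abs]
      exact pow_le_pow_left₀ (abs_nonneg _) h1 2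
    unfold sg
    nlinarith [sq_nonneg R]
  have hD := Q85.CL.whole_D h a
  obtain ⟨t, ht, ⟨x, hx, hmx⟩, hg⟩ := sing_G (M := M) hν hD
    (mem_ball_self (by norm_num)) ha hT0 hT₀ hκ (half_pos hR)
    (hthr T₀ T a (R / 2) (max M 0) q (le_max_right _ _) hq)
  rcases hc t ht with h1 | ⟨g, hg1, hg2, hg3⟩
  · have h2 := h1 x (hsub x hx)
    have hpos : 0 < (√(sg x) + √(T - t)) ^ 2 *
        (1 + |Real.log (√(sg x) + √(T - t))|) ^ q := by
      have : 0 < √(T - t) := Real.sqrt_pos.2 (by linarith [ht.2])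
      have h3 : 0 ≤ √(sg x) := Real.sqrt_nonneg _
      have h4 : 0 < 1 + |Real.log (√(sg x) + √(T - t))| := by positivity
      have h5 := Real.rpow_pos_of_pos h4 q
      positivity
    have h3 : M / ((√(sg x) + √(T - t)) ^ 2 * (1 + |Real.log (√(sg x) + √(T - t))|) ^ q) ≤
        max M 0 / ((√(sg x) + √(T - t)) ^ 2 *
          (1 + |Real.log (√(sg x) + √(T - t))|) ^ q) :=
      div_le_div_of_nonneg_right (le_max_left _ _) hpos.le
    exact absurd (h2.trans h3) (not_le.2 hmx)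
  · obtain ⟨y, hy, hyM, hyk⟩ := hg g hg1 hg2
    exact absurd (hg3 y (hsub y hy) hyM) (not_le.2 hyk)

/-- The height. -/
lemma height_lip (y z : V) : |y 2 - z 2| ≤ len (y - z) := by
  unfold len
  refine Real.abs_le_sqrt ?_
  rw [dotProduct, Fin.sum_univ_three]
  simp only [Pi.sub_apply]
  nlinarith [mul_self_nonneg (y 0 - z 0), mul_self_nonneg (y 1 - z 1)]

lemma height_fd (y w : V) : fderiv ℝ (fun y : V => y 2) y w = w 2 := by
  have h : HasFDerivAt (fun y : V => y 2)
      (ContinuousLinearMap.proj (R := ℝ) (φ := fun _ : Fin 3 => ℝ) 2) y :=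
    (ContinuousLinearMap.proj (R := ℝ) (φ := fun _ : Fin 3 => ℝ) 2).hasFDerivAt
  rw [h.fderiv]
  rfl

/-- The third component of the vorticity from the circulation, including the points of the axis. -/
lemma axis_ext {v : V → V} (hv : ContDiff ℝ ∞ v) (hax : Axi v) {κ R M : ℝ} (hR : 0 < R)
    (hc : ∀ y, 0 < sg y → sg y ≤ R ^ 2 → M < om v y →
      κ * (sg y * om v y) ≤ |y 0 * pd 0 (circ v) y + y 1 * pd 1 (circ v) y|) :
    ∀ y, sg y ≤ (R / 2) ^ 2 → M < om v y → κ * om v y ≤ |vort v y 2| := by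
  have hoff : ∀ y, 0 < sg y → sg y ≤ R ^ 2 → M < om v y → κ * om v y ≤ |vort v y 2| := by
    intro y h0 h1 h2
    have h3 := hc y h0 h1 h2
    rw [← (stmId v y (hv.differentiable (by norm_num) y) hax).1, abs_mul, abs_of_pos h0] at h3
    have h4 : sg y * (κ * om v y) ≤ sg y * |vort v y 2| := by linarith
    exact le_of_mul_le_mul_left h4 h0
  intro y hy hM
  rcases (show 0 ≤ sg y from by unfold sg; positivity).eq_or_lt with h0 | h0
  · have hy01 : y 0 = 0 ∧ y 1 = 0 := by
      unfold sg at h0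
      constructor <;> nlinarith [sq_nonneg (y 0), sq_nonneg (y 1)]
    have hSM : SM v := fun i => contDiff_pi.1 hv i
    have hvc : Continuous (vort v) := continuous_pi fun i => vort_contL hSM i
    have hoc : Continuous (om v) := by
      unfold om
      unfold len
      have : Continuous fun x => vort v x ⬝ᵥ vort v x := by
        unfold dotProduct
        exact continuous_finsetSum _ fun i _ =>
          ((continuous_apply i).comp hvc).mul ((continuous_apply i).comp hvc)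
      exact this.sqrt
    obtain ⟨c, hce⟩ : ∃ c : ℝ → V, c = fun s => y + s • Pi.single (0 : Fin 3) (1 : ℝ) := ⟨_, rfl⟩
    have hcc : Continuous c := by
      rw [hce]
      fun_prop
    have hc0 : c 0 = y := by rw [hce]; simp
    have hF : Continuous fun s => |vort v (c s) 2| - κ * om v (c s) :=
      ((continuous_apply (2 : Fin 3)).comp (hvc.comp hcc)).abs.sub
        (continuous_const.mul (hoc.comp hcc))
    have hev : ∀ᶠ s in 𝓝[>] (0 : ℝ), 0 ≤ |vort v (c s) 2| - κ * om v (c s) := by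
      have e1 : ∀ᶠ s in 𝓝[>] (0 : ℝ), M < om v (c s) := by
        have h1 : ContinuousAt (fun s => om v (c s)) 0 := (hoc.comp hcc).continuousAt
        have h2 : M < om v (c 0) := by rw [hc0]; exact hM
        exact (h1.eventually (lt_mem_nhds h2)).filter_mono nhdsWithin_le_nhds
      have e2 : ∀ᶠ s in 𝓝[>] (0 : ℝ), s ≤ R :=
        mem_nhdsWithin_of_mem_nhds (Iic_mem_nhds hR)
      filter_upwards [e1, e2, self_mem_nhdsWithin] with s h1 h2 h3
      have hs : 0 < s := h3
      have hsg : sg (c s) = s ^ 2 := by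
        rw [hce]
        unfold sg
        simp [hy01.1, hy01.2]
      have := hoff (c s) (by rw [hsg]; positivity) (by
        rw [hsg]
        exact pow_le_pow_left₀ hs.le h2 2) h1
      linarith
    have hlim : Tendsto (fun s => |vort v (c s) 2| - κ * om v (c s)) (𝓝[>] (0 : ℝ))
        (𝓝 (|vort v (c 0) 2| - κ * om v (c 0))) := (hF.tendsto 0).mono_left nhdsWithin_le_nhds
    have := ge_of_tendsto hlim hev
    rw [hc0] at this
    linarith
  · refine hoff y h0 (hy.trans ?_) hM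
    nlinarith

/-- The radial derivative of the circulation. -/
theorem crit_circ (hoff : StmOff) (hthr : StmThr) {ν T E : ℝ} {u : ℝ → V → V} {p : ℝ → V → ℝ}
    (hν : 0 < ν) (h : WSl ν T E u p) (hax : ∀ t ∈ Ioo 0 T, Axi (u t)) {T₀ κ R M q : ℝ}
    (hT0 : 0 ≤ T₀) (hT₀ : T₀ < T) (hκ : 0 < κ) (hR : 0 < R) (hq : 2 < q)
    (hc : ∀ t ∈ Ioo T₀ T,
      (∀ y, sg y ≤ R ^ 2 → om (u t) y ≤ M / ((√(sg y) + √(T - t)) ^ 2 *
        (1 + |Real.log (√(sg y) + √(T - t))|) ^ q)) ∨
      ∀ y, 0 < sg y → sg y ≤ R ^ 2 → M < om (u t) y →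
        κ * (sg y * om (u t) y)
          ≤ |y 0 * pd 0 (circ (u t)) y + y 1 * pd 1 (circ (u t)) y|) : ¬ Blow T u := by
  refine crit hoff hthr hν h hax hT0 hT₀ hκ (half_pos hR) hq (M := M) fun t ht => ?_
  have ht0 : t ∈ Ioo 0 T := ⟨hT0.trans_lt ht.1, ht.2⟩
  rcases hc t ht with h1 | h1
  · left
    intro y hy
    exact h1 y (hy.trans (by nlinarith))
  · right
    refine ⟨fun y => y 2, contDiff_apply ℝ ℝ (2 : Fin 3), height_lip, fun y hy hM => ?_⟩
    rw [height_fd]
    exact axis_ext (slice_sm h ht0) (hax t ht0) hR h1 y hy hM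

end Pool.Agent.Q85.AXT
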