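import Pool.Agent.Q85.AXT.Defs

/-!
The curl of an axisymmetric field in terms of the circulation.
-/

set_option autoImplicit false

open MeasureTheory Set Metric
open scoped ContDiff
open H459R3.NS Pool.Agent.W268.NS Pool.Agent.Q67.VD Pool.Agent.TH305.AX

namespace Pool.Agent.Q85.AXT

/-- the generator of the rotations -/
def gen (x : V) : V := ![-x 1, x 0, 0]

lemma rot_zero (x : V) : rot 0 x = x := by
  funext i
  fin_cases i <;> simp [rot]

lemma rot_hd (x : V) : HasDerivAt (fun θ : ℝ => rot θ x) (gen x) 0 := by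
  rw [hasDerivAt_pi]
  intro i
  fin_cases i
  · have h : HasDerivAt (fun θ : ℝ => Real.cos θ * x 0 - Real.sin θ * x 1)
        (-Real.sin 0 * x 0 - Real.cos 0 * x 1) 0 :=
      ((Real.hasDerivAt_cos 0).mul_const (x 0)).sub ((Real.hasDerivAt_sin 0).mul_const (x 1))
    simpa [rot, gen] using h
  · have h : HasDerivAt (fun θ : ℝ => Real.sin θ * x 0 + Real.cos θ * x 1)
        (Real.cos 0 * x 0 + -Real.sin 0 * x 1) 0 :=
      ((Real.hasDerivAt_sin 0).mul_const (x 0)).add ((Real.hasDerivAt_cos 0).mul_const (x 1))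
    simpa [rot, gen] using h
  · have h := hasDerivAt_const (x := (0 : ℝ)) (x 2)
    simpa [rot, gen] using h

lemma fderiv_exp (f : V → ℝ) (x w : V) :
    fderiv ℝ f x w = w 0 * pd 0 f x + w 1 * pd 1 f x + w 2 * pd 2 f x := by
  have h : w = w 0 • Pi.single (0 : Fin 3) (1 : ℝ) + w 1 • Pi.single (1 : Fin 3) (1 : ℝ)
      + w 2 • Pi.single (2 : Fin 3) (1 : ℝ) := by
    funext i
    fin_cases i <;> simp
  conv_lhs => rw [h]
  rw [map_add, map_add, map_smul, map_smul, map_smul]
  rfl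

lemma gen_comp {f : V → ℝ} {x : V} (hf : DifferentiableAt ℝ f x) :
    HasDerivAt (fun θ : ℝ => f (rot θ x)) (fderiv ℝ f x (gen x)) 0 := by
  have h1 : HasFDerivAt f (fderiv ℝ f x) (rot 0 x) := by
    rw [rot_zero]
    exact hf.hasFDerivAt
  exact h1.comp_hasDerivAt (0 : ℝ) (rot_hd x)

lemma axi_pd {v : V → V} {x : V} (hv : DifferentiableAt ℝ v x) (ha : Axi v) (i : Fin 3) :
    -x 1 * pd 0 (fun y => v y i) x + x 0 * pd 1 (fun y => v y i) x = gen (v x) i := by
  have hi : DifferentiableAt ℝ (fun y => v y i) x := differentiableAt_pi.1 hv i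
  have h1 := gen_comp hi
  have h2 : HasDerivAt (fun θ : ℝ => rot θ (v x) i) (gen (v x) i) 0 :=
    (hasDerivAt_pi.1 (rot_hd (v x))) i
  have h3 : (fun θ : ℝ => v (rot θ x) i) = fun θ : ℝ => rot θ (v x) i := by
    funext θ
    rw [ha θ x]
  rw [h3] at h1
  have h4 := h1.unique h2
  rw [fderiv_exp] at h4
  rw [← h4]
  simp [gen]

lemma axi_scal {g : V → ℝ} {x : V} (hg : DifferentiableAt ℝ g x) (ha : ∀ θ y, g (rot θ y) = g y) :
    -x 1 * pd 0 g x + x 0 * pd 1 g x = 0 := by
  have h1 := gen_comp hg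
  have h3 : (fun θ : ℝ => g (rot θ x)) = fun _ : ℝ => g x := by
    funext θ
    rw [ha θ x]
  rw [h3] at h1
  have h4 := h1.unique (hasDerivAt_const (x := (0 : ℝ)) (g x))
  rw [fderiv_exp] at h4
  rw [← h4]
  simp [gen]

lemma pd_circ' {v : V → V} {x : V} (hv : DifferentiableAt ℝ v x) (j : Fin 3) :
    pd j (circ v) x
      = (x 0 * pd j (fun y => v y 1) x + (if (0 : Fin 3) = j then 1 else 0) * v x 1)
        - (x 1 * pd j (fun y => v y 0) x + (if (1 : Fin 3) = j then 1 else 0) * v x 0) := by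
  have hc : ∀ k : Fin 3, HasFDerivAt (fun y : V => y k)
      (ContinuousLinearMap.proj (R := ℝ) (φ := fun _ : Fin 3 => ℝ) k) x := fun k =>
    (ContinuousLinearMap.proj (R := ℝ) (φ := fun _ : Fin 3 => ℝ) k).hasFDerivAt
  have hi : ∀ k : Fin 3, HasFDerivAt (fun y => v y k) (fderiv ℝ (fun y => v y k) x) x :=
    fun k => (differentiableAt_pi.1 hv k).hasFDerivAt
  have h := ((hc 0).mul (hi 1)).sub ((hc 1).mul (hi 0))
  have h1 : HasFDerivAt (circ v) _ x := h
  have h2 : pd j (circ v) x = fderiv ℝ (circ v) x (Pi.single j 1) := rfl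
  rw [h2, h1.fderiv]
  simp only [sub_apply, add_apply, smul_apply, smul_eq_mul, ContinuousLinearMap.proj_apply, pd,
    Pi.single_apply]
  ring

theorem stmId : StmId := by
  intro v x hv ha
  have a0 := axi_pd hv ha 0
  have a1 := axi_pd hv ha 1
  have a2 := axi_pd hv ha 2
  have c0 := pd_circ' hv 0
  have c1 := pd_circ' hv 1
  have c2 := pd_circ' hv 2
  simp only [gen, Matrix.cons_val_zero, Matrix.cons_val_one, Matrix.cons_val] at a0 a1 a2
  simp only [if_true, Fin.isValue, one_ne_zero, if_false, zero_mul, one_mul,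
    zero_ne_one, add_zero] at c0 c1
  rw [if_neg (by decide), if_neg (by decide), zero_mul, zero_mul, add_zero, add_zero] at c2
  have w0 : vort v x 0 = pd 1 (fun y => v y 2) x - pd 2 (fun y => v y 1) x := rfl
  have w1 : vort v x 1 = pd 2 (fun y => v y 0) x - pd 0 (fun y => v y 2) x := rfl
  have w2 : vort v x 2 = pd 0 (fun y => v y 1) x - pd 1 (fun y => v y 0) x := rfl
  have e1 : sg x * vort v x 2 = x 0 * pd 0 (circ v) x + x 1 * pd 1 (circ v) x := by
    rw [w2, c0, c1]
    unfold sg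
    linear_combination (-(x 0)) * a0 - (x 1) * a1
  have e2 : x 0 * vort v x 0 + x 1 * vort v x 1 = -pd 2 (circ v) x := by
    rw [w0, w1, c2]
    linear_combination a2
  refine ⟨e1, e2, fun g hg hga => ?_⟩
  have b := axi_scal hg hga
  rw [fderiv_exp]
  have e3 : sg x * (vort v x 0 * pd 0 g x + vort v x 1 * pd 1 g x)
      = (x 0 * vort v x 0 + x 1 * vort v x 1) * (x 0 * pd 0 g x + x 1 * pd 1 g x) := by
    unfold sg
    linear_combination (x 0 * vort v x 1 - x 1 * vort v x 0) * b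
  linear_combination e3 + pd 2 g x * e1 + (x 0 * pd 0 g x + x 1 * pd 1 g x) * e2

end Pool.Agent.Q85.AXT
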