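import Pool.Agent.Q67.LV.All
import Pool.Agent.Q95.CL.Far
import Pool.Agent.Q285.CL.WSc
import Pool.Agent.Q85.AXT.Id

/-!
No function increases or decreases along all the large vortex lines at a singular point.
-/

set_option autoImplicit false

open MeasureTheory Set Metric Filter Topology
open scoped ContDiff
open H459R3.NS Pool.Agent.W268.NS Pool.Agent.Q67.VD Pool.Agent.TH305.AX
open Pool.Agent.Q199.VD

namespace Pool.Agent.Q85.AXT

open Pool.Agent.Q85.CC Pool.Agent.Q85.CL Pool.Agent.Q151.CC Pool.Agent.Q85.VL Pool.Agent.Q67.LV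

/-- A function whose derivative along the large vorticities is bounded from below, with any sign. -/
theorem dblG {ν T E : ℝ} {Ω : Set V} {u : ℝ → V → V}
    {p : ℝ → V → ℝ} (hν : 0 < ν) (hT : 0 < T) (h : DSl ν T E Ω u p) {T₀ κ R M : ℝ} {a : V}
    {m : ℝ → V → ℝ} (hT0 : 0 ≤ T₀) (hT₀ : T₀ < T) (hκ : 0 < κ) (hR : 0 < R) (hM : 0 ≤ M)
    (hΩ : closedBall a R ⊆ Ω) (hmc : ∀ t ∈ Ioo T₀ T, Continuous (m t))
    (hm0 : ∀ t ∈ Ioo T₀ T, ∀ y, 0 ≤ m t y) (hK : Kato T₀ T a R m)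
    (hc : ∀ t ∈ Ioo T₀ T, (∃ x, ‖x - a‖ ≤ R ∧ m t x < om (u t) x) →
      ∃ g : V → ℝ, ContDiff ℝ 1 g ∧ (∀ y z, |g y - g z| ≤ len (y - z)) ∧
        ∀ y, ‖y - a‖ ≤ R → M < om (u t) y →
          κ * om (u t) y ≤ |fderiv ℝ g y (vort (u t) y)|) :
    ∃ B δ : ℝ, 0 < δ ∧ ∀ t ∈ Ioo 0 T, T - δ < t → ∀ x, ‖x - a‖ ≤ δ → ‖u t x‖ ≤ B := by
  have hνi : 0 < ν⁻¹ := inv_pos.2 hν
  refine lyapM_K stmLyapM Pool.Agent.Q284.CL.dom hν hT h (κ := min κ 1) hT0 hT₀
    (lt_min hκ one_pos) hR hM hΩ hmc hm0 hK fun t ht v hv hvt hom => ?_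
  have hm0' : ∀ y, 0 ≤ 2 * (ν⁻¹ * m t y + 1) := by
    intro y
    have := mul_nonneg hνi.le (hm0 t ht y)
    linarith
  by_cases hex : ∃ x, ‖x - a‖ ≤ R ∧ m t x < om (u t) x
  · obtain ⟨g, hg, hlip, hce⟩ := hc t ht hex
    have hcone : ∀ y, ‖y - a‖ ≤ R / 2 → ν⁻¹ * M < om v y →
        min κ 1 * om v y ≤ |fderiv ℝ g y (vort v y)| := by
      intro y hy hMy
      rw [hom y hy] at hMy ⊢
      rw [hvt y hy, map_smul, smul_eq_mul, abs_mul, abs_of_pos hνi]
      have h2 : min κ 1 * om (u t) y ≤ |fderiv ℝ g y (vort (u t) y)| :=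
        (mul_le_mul_of_nonneg_right (min_le_left _ _) (om_nnL _ _)).trans
          (hce y (by linarith) (lt_of_mul_lt_mul_left hMy hνi.le))
      calc min κ 1 * (ν⁻¹ * om (u t) y) = ν⁻¹ * (min κ 1 * om (u t) y) := by ring
        _ ≤ _ := mul_le_mul_of_nonneg_left h2 hνi.le
    have hvc : Continuous (vort v) := continuous_pi fun i => vort_contL hv i
    have hcont : Continuous (fun y => fderiv ℝ g y (vort v y)) :=
      (hg.continuous_fderiv (by norm_num)).clm_apply hvc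
    classical
    refine ⟨fun y => if 0 ≤ fderiv ℝ g y (vort v y) then 1 else -1, g, fun y => ?_, ?_,
      hg, hlip, fun y hy hMy => ?_⟩
    · by_cases h0 : 0 ≤ fderiv ℝ g y (vort v y)
      · left; simp [h0]
      · right; simp [h0]
    · intro y hy
      have hpos : 0 < om v y := (mul_nonneg hνi.le hM).trans_lt hy.2
      have h1 : 0 < |fderiv ℝ g y (vort v y)| :=
        (mul_pos (lt_min hκ one_pos) hpos).trans_le (hcone y hy.1 hy.2)
      have h2 : fderiv ℝ g y (vort v y) ≠ 0 := abs_pos.1 h1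
      rcases lt_or_gt_of_ne h2 with h3 | h3
      · have h4 : ∀ᶠ z in 𝓝 y, fderiv ℝ g z (vort v z) < 0 :=
          hcont.continuousAt.eventually (gt_mem_nhds h3)
        refine ContinuousAt.continuousWithinAt ?_
        refine (continuousAt_const (y := (-1 : ℝ))).congr ?_
        filter_upwards [h4] with z hz
        rw [if_neg (not_le.2 hz)]
      · have h4 : ∀ᶠ z in 𝓝 y, 0 < fderiv ℝ g z (vort v z) :=
          hcont.continuousAt.eventually (lt_mem_nhds h3)
        refine ContinuousAt.continuousWithinAt ?_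
        refine (continuousAt_const (y := (1 : ℝ))).congr ?_
        filter_upwards [h4] with z hz
        rw [if_pos hz.le]
    · rw [map_smul, smul_eq_mul]
      have h1 := hcone y hy hMy
      have h2 := hm0' y
      have h3 : (if 0 ≤ fderiv ℝ g y (vort v y) then (1 : ℝ) else -1) *
          (fderiv ℝ g y (vort v y)) = |fderiv ℝ g y (vort v y)| := by
        by_cases h0 : 0 ≤ fderiv ℝ g y (vort v y)
        · rw [if_pos h0, one_mul, abs_of_nonneg h0]
        · rw [if_neg h0, abs_of_neg (not_le.1 h0)]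
          ring
      rw [h3]
      linarith
  · push Not at hex
    refine ⟨fun _ => 1, fun _ => 0, fun _ => Or.inl rfl, continuousOn_const, contDiff_const,
      fun y z => ?_, fun y hy _ => ?_⟩
    · rw [sub_self, abs_zero]
      exact Real.sqrt_nonneg _
    · have h4 : fderiv ℝ (fun _ : V => (0 : ℝ)) y ((1 : ℝ) • vort v y) = 0 := by simp
      rw [h4, zero_add, hom y hy]
      have h1 := mul_le_mul_of_nonneg_left (hex y (by linarith)) hνi.le
      have h2 := mul_nonneg hνi.le (hm0 t ht y)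
      have h3 : min κ 1 * (ν⁻¹ * om (u t) y) ≤ ν⁻¹ * om (u t) y :=
        mul_le_of_le_one_left (mul_nonneg hνi.le (om_nnL _ _)) (min_le_right _ _)
      linarith

/-- At a singular point there is a time with large vorticities such that no function increases or
decreases at a definite rate along all of them. -/
theorem sing_G {ν T E : ℝ} {Ω : Set V} {u : ℝ → V → V} {p : ℝ → V → ℝ}
    (hν : 0 < ν) (h : DSl ν T E Ω u p) {a : V} (ha : a ∈ Ω) (hs : Sing T u a) {T₀ κ R M : ℝ}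
    {m : ℝ → V → ℝ} (hT0 : 0 ≤ T₀) (hT₀ : T₀ < T) (hκ : 0 < κ) (hR : 0 < R)
    (hm : Thr T₀ T a R m) :
    ∃ t ∈ Ioo T₀ T, (∃ x, ‖x - a‖ ≤ R ∧ m t x < om (u t) x) ∧
      ∀ g : V → ℝ, ContDiff ℝ 1 g → (∀ y z, |g y - g z| ≤ len (y - z)) →
        ∃ y, ‖y - a‖ ≤ R ∧ M < om (u t) y ∧
          |fderiv ℝ g y (vort (u t) y)| < κ * om (u t) y := by
  by_contra hcon
  push Not at hcon
  obtain ⟨R', hR', hRR, hsub⟩ := small_ball h.openO ha hR
  refine hs.not_bdd (dblG hν hs.pos h (M := max M 0) hT0 hT₀ hκ hR'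
    (le_max_right _ _) hsub hm.cont hm.nonneg (hm.kato.mono hRR) fun t ht hex => ?_)
  obtain ⟨x, hx, hMx⟩ := hex
  obtain ⟨g, hg, hlip, hy⟩ := hcon t ht ⟨x, hx.trans hRR, hMx⟩
  exact ⟨g, hg, hlip, fun y hyR hMy => hy y (hyR.trans hRR) ((le_max_left _ _).trans_lt hMy)⟩

end Pool.Agent.Q85.AXT
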